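import Pool.Agent.V11250.Specker

/-!
# MP_602553_lc, Q1: answer yes

For every finite relational vocabulary with symbols of arity at most two and at least one binary
symbol there is a substructure closed class whose Specker function is not MC-finite. The
definitions are in `Pool.Agent.V11250.SpeckerDefs`.
-/

set_option autoImplicit false

namespace Pool.Agent.Results.MP_602553_lc.BinarySpecker

open FirstOrder FirstOrder.Language Pool.Agent.V11250.SpeckerDefs Pool.Agent.V11250.Specker

/-- For every finite relational vocabulary with relation symbols of arity at most two, at least
one of them binary, there is a class of finite structures which is closed under isomorphism and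
substructures and whose Specker function is not MC-finite. -/
theorem result (L : FirstOrder.Language.{0, 0}) [L.IsRelational]
    [Finite (Σ n, L.Relations n)] (_ : ∀ n, 2 < n → IsEmpty (L.Relations n))
    (hbin : Nonempty (L.Relations 2)) :
    ∃ C : ∀ n : ℕ, L.Structure (Fin n) → Prop,
      SubstructureClosed L C ∧ ¬ MCFinite (fun n => (Sp L C n : ℤ)) := by
  obtain ⟨R⟩ := hbin
  obtain ⟨S, hS⟩ := exists_not_mc
    (fun S n => Sp L (CS L R ((fun i => i + 2) '' S)) n)
    (fun S S' h => sp_injective L le_rfl R S S' h)
  exact ⟨CS L R ((fun i => i + 2) '' S), CS_closed R _, hS⟩

end Pool.Agent.Results.MP_602553_lc.BinarySpecker
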